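import Mathlib

set_option autoImplicit false

/-! Truncated graph metric on a disjoint union of graphs of large girth and chromatic number. -/

namespace Pool.Agent.V11102.Asq

open SimpleGraph

section metric
variable {W : Type} (Γ : SimpleGraph W) (idx : W → ℕ)

/-- truncated graph distance -/
noncomputable def tr (L : ℕ) (a b : W) : ℕ := (min (Γ.edist a b) (L : ℕ∞)).toNat

theorem tr_cast (L : ℕ) (a b : W) : ((tr Γ L a b : ℕ) : ℕ∞) = min (Γ.edist a b) (L : ℕ∞) := by
  unfold tr
  apply ENat.natCast_toNat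
  exact ne_top_of_le_ne_top (ENat.natCast_ne_top L) (min_le_right _ _)

theorem tr_le (L : ℕ) (a b : W) : tr Γ L a b ≤ L := by
  have h := tr_cast Γ L a b
  have h2 : ((tr Γ L a b : ℕ) : ℕ∞) ≤ (L : ℕ∞) := h ▸ min_le_right _ _
  exact_mod_cast h2

theorem tr_comm (L : ℕ) (a b : W) : tr Γ L a b = tr Γ L b a := by
  unfold tr; rw [SimpleGraph.edist_comm]

theorem tr_self (L : ℕ) (a : W) : tr Γ L a a = 0 := by
  have h := tr_cast Γ L a a
  rw [SimpleGraph.edist_self] at h
  simpa using h

theorem tr_adj (L : ℕ) {a b c : W} (h : Γ.Adj b c) : tr Γ L a c ≤ tr Γ L a b + 1 := by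
  have h1 := tr_cast Γ L a b
  have h2 := tr_cast Γ L a c
  have h3 : Γ.edist a c ≤ Γ.edist a b + 1 := by
    have := SimpleGraph.edist_triangle (G := Γ) (u := a) (v := b) (w := c)
    rwa [SimpleGraph.edist_eq_one_iff_adj.mpr h] at this
  have h4 : ((tr Γ L a c : ℕ) : ℕ∞) ≤ ((tr Γ L a b + 1 : ℕ) : ℕ∞) := by
    push_cast
    rw [h1, h2]
    rcases le_total (Γ.edist a b) (L : ℕ∞) with h5 | h5
    · rw [min_eq_left h5]
      exact (min_le_left _ _).trans h3
    · rw [min_eq_right h5]
      exact (min_le_right _ _).trans le_self_add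
  exact_mod_cast h4

/-- the distance on the disjoint union -/
noncomputable def dN (a b : W) : ℕ := tr Γ (max (idx a) (idx b) + 1) a b

theorem dN_triangle (hΓ : ∀ a b, Γ.Adj a b → idx a = idx b) (a b c : W) :
    dN Γ idx a c ≤ dN Γ idx a b + dN Γ idx b c := by
  have hreach : ∀ a b, Γ.edist a b ≠ ⊤ → idx a = idx b := by
    intro a b h
    obtain ⟨p, -⟩ := SimpleGraph.exists_walk_of_edist_ne_top h
    clear h
    induction p with
    | nil => rfl
    | cons h p ih => exact (hΓ _ _ h).trans ih
  have h1 := tr_cast Γ (max (idx a) (idx b) + 1) a b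
  have h2 := tr_cast Γ (max (idx b) (idx c) + 1) b c
  have h3 := tr_cast Γ (max (idx a) (idx c) + 1) a c
  have h4 : ((dN Γ idx a c : ℕ) : ℕ∞) ≤ ((dN Γ idx a b + dN Γ idx b c : ℕ) : ℕ∞) := by
    unfold dN
    rw [Nat.cast_add, h1, h2, h3]
    rcases le_total (Γ.edist a b) ((max (idx a) (idx b) + 1 : ℕ) : ℕ∞) with h5 | h5
    · rcases le_total (Γ.edist b c) ((max (idx b) (idx c) + 1 : ℕ) : ℕ∞) with h6 | h6
      · rw [min_eq_left h5, min_eq_left h6]
        exact (min_le_left _ _).trans SimpleGraph.edist_triangle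
      · have h7 : idx a = idx b :=
          hreach a b (ne_top_of_le_ne_top (ENat.natCast_ne_top _) h5)
        rw [min_eq_left h5, min_eq_right h6, h7]
        exact (min_le_right _ _).trans le_add_self
    · rcases le_total (Γ.edist b c) ((max (idx b) (idx c) + 1 : ℕ) : ℕ∞) with h6 | h6
      · have h7 : idx b = idx c :=
          hreach b c (ne_top_of_le_ne_top (ENat.natCast_ne_top _) h6)
        rw [min_eq_right h5, min_eq_left h6, ← h7]
        exact (min_le_right _ _).trans le_self_add
      · rw [min_eq_right h5, min_eq_right h6]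
        refine (min_le_right _ _).trans ?_
        norm_cast
        omega
  exact_mod_cast h4

theorem dN_eq_zero (a b : W) (h : dN Γ idx a b = 0) : a = b := by
  have h1 := tr_cast Γ (max (idx a) (idx b) + 1) a b
  unfold dN at h
  rw [h] at h1
  have h2 : Γ.edist a b = 0 := by
    rcases le_total (Γ.edist a b) ((max (idx a) (idx b) + 1 : ℕ) : ℕ∞) with h5 | h5
    · rw [min_eq_left h5] at h1
      simpa using h1.symm
    · rw [min_eq_right h5] at h1
      exfalso
      have : (0 : ℕ) = max (idx a) (idx b) + 1 := by exact_mod_cast h1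
      omega
  exact SimpleGraph.edist_eq_zero_iff.mp h2

/-- the metric space structure -/
@[reducible] noncomputable def mkMetric (hΓ : ∀ a b, Γ.Adj a b → idx a = idx b) : MetricSpace W where
  dist a b := (dN Γ idx a b : ℝ)
  dist_self a := by
    show ((dN Γ idx a a : ℕ) : ℝ) = 0
    unfold dN
    rw [tr_self]; simp
  dist_comm a b := by
    show ((dN Γ idx a b : ℕ) : ℝ) = (dN Γ idx b a : ℕ)
    unfold dN
    rw [tr_comm, max_comm]
  dist_triangle a b c := by
    show ((dN Γ idx a c : ℕ) : ℝ) ≤ (dN Γ idx a b : ℕ) + (dN Γ idx b c : ℕ)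
    exact_mod_cast dN_triangle Γ idx hΓ a b c
  eq_of_dist_eq_zero := by
    intro a b h
    apply dN_eq_zero Γ idx a b
    have h' : ((dN Γ idx a b : ℕ) : ℝ) = 0 := h
    exact_mod_cast h'

end metric

/-- Key estimate along a walk. -/
theorem walk_key {W : Type} (Γ : SimpleGraph W) (L : ℕ) (u v : W) {κ : Type*} (f : κ → W → ℝ)
    (ε : ℝ) (hf : ∀ i a b, Γ.Adj a b → |f i a - f i b| ≤ 1) (huv : ∀ i, |f i u - f i v| ≤ ε)
    {x y : W} (p : Γ.Walk x y) :
    |((tr (Γ.deleteEdges {s(u, v)}) L u x : ℕ) : ℝ) -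
      ((tr (Γ.deleteEdges {s(u, v)}) L u y : ℕ) : ℝ)| ≤ p.length ∨
    (1 ≤ p.length ∧ ∀ i, |f i x - f i y| ≤ p.length - 1 + ε) := by
  have hlen : ∀ {x y : W} (p : Γ.Walk x y) i, |f i x - f i y| ≤ p.length := by
    intro x y p i
    induction p with
    | nil => simp
    | @cons a b c h p ih =>
      have h1 := hf i _ _ h
      rw [SimpleGraph.Walk.length_cons]
      push_cast
      have h2 : f i a - f i c = (f i a - f i b) + (f i b - f i c) := by ring
      rw [h2]
      refine (abs_add_le _ _).trans ?_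
      linarith
  induction p with
  | nil => left; simp
  | @cons a b c h p ih =>
    have hc : (((SimpleGraph.Walk.cons h p).length : ℕ) : ℝ) = (p.length : ℝ) + 1 := by
      rw [SimpleGraph.Walk.length_cons]; push_cast; ring
    rw [hc]
    by_cases he : s(a, b) = s(u, v)
    · right
      refine ⟨by rw [SimpleGraph.Walk.length_cons]; omega, fun i => ?_⟩
      have h1 : |f i a - f i b| ≤ ε := by
        rcases Sym2.eq_iff.mp he with ⟨rfl, rfl⟩ | ⟨rfl, rfl⟩
        · exact huv i
        · rw [abs_sub_comm]; exact huv i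
      have h3 := hlen p i
      have h2 : f i a - f i c = (f i a - f i b) + (f i b - f i c) := by ring
      rw [h2]
      refine (abs_add_le _ _).trans ?_
      linarith
    · rcases ih with ih | ⟨ih1, ih⟩
      · left
        have hadj : (Γ.deleteEdges {s(u, v)}).Adj a b := by
          rw [SimpleGraph.deleteEdges_adj]
          exact ⟨h, he⟩
        have h1 := tr_adj (Γ.deleteEdges {s(u, v)}) L (a := u) hadj
        have h2 := tr_adj (Γ.deleteEdges {s(u, v)}) L (a := u) hadj.symm
        have h1' : ((tr (Γ.deleteEdges {s(u, v)}) L u b : ℕ) : ℝ) ≤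
            ((tr (Γ.deleteEdges {s(u, v)}) L u a : ℕ) : ℝ) + 1 := by exact_mod_cast h1
        have h2' : ((tr (Γ.deleteEdges {s(u, v)}) L u a : ℕ) : ℝ) ≤
            ((tr (Γ.deleteEdges {s(u, v)}) L u b : ℕ) : ℝ) + 1 := by exact_mod_cast h2
        rw [abs_le] at ih ⊢
        constructor <;> linarith [ih.1, ih.2]
      · right
        refine ⟨by rw [SimpleGraph.Walk.length_cons]; omega, fun i => ?_⟩
        have h1 := hf i _ _ h
        have h3 := ih i
        have h2 : f i a - f i c = (f i a - f i b) + (f i b - f i c) := by ring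
        rw [h2]
        refine (abs_add_le _ _).trans ?_
        linarith

end Pool.Agent.V11102.Asq
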